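import Mathlib
import Pool.Agent.SCF.Trans

/-!
# The Secant Conjecture

For all Schubert problems in `Gr(k, n)` and all disjoint secant flags the intersection of the
Schubert varieties is transverse and all its points are real.
-/

set_option autoImplicit false

namespace Pool.Agent.Results.MP_0c25eb_ag.SecantTheorem

open Module

/-- The member of dimension `d` of the complete flag given by the basis `g` of `ℂⁿ`: the linear
span of the first `d` vectors. -/
def flagSpace {n : ℕ} (g : Fin n → Fin n → ℂ) (d : ℕ) : Submodule ℂ (Fin n → ℂ) :=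
  Submodule.span ℂ (g '' {a : Fin n | (a : ℕ) < d})

/-- The dimension `n - k + i - λ_i` in the `i`-th Schubert condition; the index `i : Fin k` here is
`i - 1` in this formula. -/
def condDim {k : ℕ} (n : ℕ) (lam : Fin k → ℕ) (i : Fin k) : ℕ := n - k + (i : ℕ) + 1 - lam i

/-- The Schubert variety `X_λ F_•` in `Gr(k, n)` of the flag given by `g`: all `H` with `dim H = k`
and `dim (H ∩ F_{n-k+i-λ_i}) ≥ i` for `i = 1, …, k` (the index `i : Fin k` below is `i - 1`). -/
def schubertVariety {n : ℕ} (k : ℕ) (lam : Fin k → ℕ) (g : Fin n → Fin n → ℂ) :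
    Set (Submodule ℂ (Fin n → ℂ)) :=
  {H | finrank ℂ H = k ∧
    ∀ i : Fin k, (i : ℕ) + 1 ≤ finrank ℂ ↥(H ⊓ flagSpace g (condDim n lam i))}

/-- The points of the intersection of the Schubert varieties `X_{λ^j} F^j` in `Gr(k, n)`: all `H`
of dimension `k` which are in all of them. -/
def solutions {n r : ℕ} (k : ℕ) (lam : Fin r → Fin k → ℕ) (G : Fin r → Fin n → Fin n → ℂ) :
    Set (Submodule ℂ (Fin n → ℂ)) :=
  {H | finrank ℂ H = k ∧ ∀ j, H ∈ schubertVariety k (lam j) (G j)}

/-- The list of partitions `λ^1, …, λ^r` is a Schubert problem in `Gr(k, n)`. -/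
def IsSchubertProblem {r : ℕ} (k n : ℕ) (lam : Fin r → Fin k → ℕ) : Prop :=
  k ≤ n ∧ (∀ j, Antitone (lam j)) ∧ (∀ j i, lam j i ≤ n - k) ∧
    (∑ j, ∑ i, lam j i) = k * (n - k)

/-- The bases `γ(t j 0), γ(t j 1), …` with `γ(s) = (1, s, s², …, s^(n-1))`: they give the secant
flags with the points of secancy `t j 0, t j 1, …`. -/
def secantBases {n r : ℕ} (t : Fin r → Fin n → ℝ) : Fin r → Fin n → Fin n → ℂ :=
  fun j a b => ((t j a : ℂ)) ^ (b : ℕ)

/-- The secant flags with points of secancy `t j` are disjoint: the points of each flag are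
distinct, and of any two flags, all points of one lie to the left of all points of the other. -/
def DisjointSecant {n r : ℕ} (t : Fin r → Fin n → ℝ) : Prop :=
  (∀ j, Function.Injective (t j)) ∧
    ∀ j j', j ≠ j' → (∀ a b, t j a < t j' b) ∨ (∀ a b, t j' a < t j b)

/-- `H` is real: it is stable under complex conjugation of the coordinates, equivalently it is
spanned by real vectors. -/
def IsRealSpace {n : ℕ} (H : Submodule ℂ (Fin n → ℂ)) : Prop := ∀ v ∈ H, star v ∈ H

/-- `H` is in the open Schubert cell of `X_λ F_•` (so it is a smooth point of `X_λ F_•`):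
`dim (H ∩ F_m) = i` and `dim (H ∩ F_{m-1}) = i - 1` for `m = n - k + i - λ_i`, `i = 1, …, k`. -/
def InOpenCell {n k : ℕ} (lam : Fin k → ℕ) (g : Fin n → Fin n → ℂ)
    (H : Submodule ℂ (Fin n → ℂ)) : Prop :=
  ∀ i : Fin k, finrank ℂ ↥(H ⊓ flagSpace g (condDim n lam i)) = (i : ℕ) + 1 ∧
    finrank ℂ ↥(H ⊓ flagSpace g (condDim n lam i - 1)) = (i : ℕ)

/-- `φ : H → ℂⁿ / H` is in the tangent space at `H` of the Schubert variety `X_λ F_•` (for `H` in
the open cell): `φ (H ∩ F_m) ⊆ (F_m + H) / H` for all `m = n - k + i - λ_i`. -/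
def InTangentSpace {n k : ℕ} (lam : Fin k → ℕ) (g : Fin n → Fin n → ℂ)
    (H : Submodule ℂ (Fin n → ℂ)) (φ : H →ₗ[ℂ] ((Fin n → ℂ) ⧸ H)) : Prop :=
  ∀ (i : Fin k) (v : H), (v : Fin n → ℂ) ∈ flagSpace g (condDim n lam i) →
    φ v ∈ (flagSpace g (condDim n lam i)).map H.mkQ

/-- **The Secant Conjecture.** For every Schubert problem `λ^1, …, λ^r` in `Gr(k, n)` and all
disjoint secant flags, the intersection of the Schubert varieties is finite; each of its points is
real, lies in the open Schubert cells and is a transverse point of intersection (the tangent spaces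
of the Schubert varieties at this point meet only in `0`); and the number of points is the number
for generic flags (flags given by bases whose coordinates are algebraically independent over `ℚ`),
and the largest finite number for any flags. -/
theorem result (k n r : ℕ) (lam : Fin r → Fin k → ℕ) (hlam : IsSchubertProblem k n lam)
    (t : Fin r → Fin n → ℝ) (ht : DisjointSecant t) :
    (solutions k lam (secantBases t)).Finite ∧
    (∀ H ∈ solutions k lam (secantBases t),
      IsRealSpace H ∧ (∀ j, InOpenCell (lam j) (secantBases t j) H) ∧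
      ∀ φ : H →ₗ[ℂ] ((Fin n → ℂ) ⧸ H),
        (∀ j, InTangentSpace (lam j) (secantBases t j) H φ) → φ = 0) ∧
    (∀ G : Fin r → Fin n → Fin n → ℂ,
      AlgebraicIndependent ℚ (fun p : Fin r × Fin n × Fin n => G p.1 p.2.1 p.2.2) →
      (solutions k lam G).Finite ∧
      (solutions k lam G).ncard = (solutions k lam (secantBases t)).ncard) ∧
    (∀ G : Fin r → Fin n → Fin n → ℂ, (∀ j, LinearIndependent ℂ (G j)) →
      (solutions k lam G).Finite →
      (solutions k lam G).ncard ≤ (solutions k lam (secantBases t)).ncard) := by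
  have hsol : ∀ G : Fin r → Fin n → Fin n → ℂ, solutions k lam G = SCF.Sch k lam G := by
    intro G
    ext H
    constructor
    · rintro ⟨h1, h2⟩
      exact ⟨h1, fun j i => (h2 j).2 i⟩
    · rintro ⟨h1, h2⟩
      exact ⟨h1, fun j => ⟨h1, fun i => h2 j i⟩⟩
  have hS : SCF.SP k n r lam := ⟨hlam.1, hlam.2.1, hlam.2.2.1, hlam.2.2.2⟩
  have hT : SCF.Sep t := ⟨ht.1, ht.2⟩
  have hI : SCF.Ind (SCF.sec t) := SCF.p_SECI n r t hT
  have hg := SCF.q_GSEC k n r lam hS t hT
  have hsec : secantBases t = SCF.sec t := rfl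
  rw [hsec]
  simp only [hsol]
  refine ⟨SCF.q_SF k n r lam hS t hT, ?_, ?_, ?_⟩
  · intro H hH
    obtain ⟨hA, hB⟩ := SCF.trans_of_good k n r lam hS (SCF.sec t) hI hg H hH
    refine ⟨?_, ?_, ?_⟩
    · intro v hv
      have hc : SCF.cj H = H := SCF.q_REAL k n r lam hS t hT H hH
      rw [← hc] at hv
      exact (SCF.mem_sg SCF.cjσ H v).1 hv
    · intro j i
      refine ⟨(hA j i).1, ?_⟩
      have h1 := (hA j i).2
      have h2 : condDim n (lam j) i - 1 = n - k + (i : ℕ) - lam j i := by
        unfold condDim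
        have := hS.le j i
        omega
      rw [h2]
      exact h1
    · intro φ hφ
      exact hB φ fun j i v hv => hφ j i v hv
  · intro G hG
    exact SCF.number_generic k n r lam hS t hT G hG
  · intro G hG hfin
    exact SCF.q_MAX k n r lam hS t hT G hG hfin

end Pool.Agent.Results.MP_0c25eb_ag.SecantTheorem
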